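import Mathlib

/-!
# Module L of MP_0a3d4f_ag (Laurent polynomials)
-/

set_option autoImplicit false

namespace Pool.Agent.helper4.CJ

open AddMonoidAlgebra

/-- if a product of Laurent polynomials is one, both are monomials -/
theorem mono_of_mul_eq_one {k : Type} [Field k] (r s : AddMonoidAlgebra k (ℤ × ℤ))
    (h : r * s = 1) : r.coeff.support.card = 1 ∧ s.coeff.support.card = 1 := by
  classical
  have hr : r ≠ 0 := by rintro rfl; simp at h
  have hs : s ≠ 0 := by rintro rfl; simp at h
  have hr' : r.coeff.support.Nonempty := by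
    rw [Finsupp.support_nonempty_iff]; simpa using hr
  have hs' : s.coeff.support.Nonempty := by
    rw [Finsupp.support_nonempty_iff]; simpa using hs
  have hcard : ¬ (1 < r.coeff.support.card * s.coeff.support.card) := by
    intro hc
    obtain ⟨p1, hp1, p2, hp2, hne, hu1, hu2⟩ := TwoUniqueSums.uniqueAdd_of_one_lt_card hc
    rw [Finset.mem_product] at hp1 hp2
    have h1 := AddMonoidAlgebra.coeff_mul_add_of_uniqueAdd hu1
    have h2 := AddMonoidAlgebra.coeff_mul_add_of_uniqueAdd hu2
    rw [h] at h1 h2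
    have n1 : r.coeff p1.1 * s.coeff p1.2 ≠ 0 :=
      mul_ne_zero (Finsupp.mem_support_iff.1 hp1.1) (Finsupp.mem_support_iff.1 hp1.2)
    have n2 : r.coeff p2.1 * s.coeff p2.2 ≠ 0 :=
      mul_ne_zero (Finsupp.mem_support_iff.1 hp2.1) (Finsupp.mem_support_iff.1 hp2.2)
    have e1 : p1.1 + p1.2 = 0 := by
      by_contra hcon
      apply n1
      rw [← h1, AddMonoidAlgebra.one_def]
      simp [AddMonoidAlgebra.coeff_single, Ne.symm hcon]
    have e2 : p2.1 + p2.2 = 0 := by
      by_contra hcon
      apply n2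
      rw [← h2, AddMonoidAlgebra.one_def]
      simp [AddMonoidAlgebra.coeff_single, Ne.symm hcon]
    have := hu1 hp2.1 hp2.2 (e2.trans e1.symm)
    exact hne (Prod.ext this.1.symm this.2.symm)
  have a1 := hr'.card_pos
  have a2 := hs'.card_pos
  push Not at hcard
  constructor <;> nlinarith

theorem laurent_span {k : Type} [Field k] {m : ℕ} (G G' : Fin m → AddMonoidAlgebra k (ℤ × ℤ))
    (hG : G ≠ 0) (h : Submodule.span (AddMonoidAlgebra k (ℤ × ℤ)) {G} =
      Submodule.span (AddMonoidAlgebra k (ℤ × ℤ)) {G'}) :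
    ∃ (t : ℤ × ℤ) (c : k), c ≠ 0 ∧ ∀ i u, (G' i).coeff u = c * (G i).coeff (u + t) := by
  classical
  have h1 : G' ∈ Submodule.span (AddMonoidAlgebra k (ℤ × ℤ)) {G} := by
    rw [h]; exact Submodule.mem_span_singleton_self _
  have h2 : G ∈ Submodule.span (AddMonoidAlgebra k (ℤ × ℤ)) {G'} := by
    rw [← h]; exact Submodule.mem_span_singleton_self _
  obtain ⟨r, hr⟩ := Submodule.mem_span_singleton.1 h1
  obtain ⟨s, hs⟩ := Submodule.mem_span_singleton.1 h2
  have hsr : s * r = 1 := by
    obtain ⟨i, hi⟩ := Function.ne_iff.1 hG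
    have h3 : (s * r) * G i = 1 * G i := by
      have := congrFun hs i
      rw [← hr] at this
      simp only [Pi.smul_apply, smul_eq_mul] at this
      rw [mul_assoc, this, one_mul]
    exact mul_right_cancel₀ hi h3
  obtain ⟨-, hcard⟩ := mono_of_mul_eq_one s r hsr
  obtain ⟨a, ha, hra⟩ := Finsupp.card_support_eq_one.1 hcard
  refine ⟨-a, r.coeff a, ha, ?_⟩
  intro i u
  have h4 : G' i = r * G i := by rw [← hr]; rfl
  have h5 : r = AddMonoidAlgebra.single a (r.coeff a) := by
    apply AddMonoidAlgebra.coeff_injective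
    rw [AddMonoidAlgebra.coeff_single]
    exact hra
  rw [h4, h5, AddMonoidAlgebra.coeff_single]
  rw [AddMonoidAlgebra.coeff_single_mul_apply, Finsupp.single_eq_same, add_comm u (-a)]

end Pool.Agent.helper4.CJ
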