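import Mathlib
import Pool.Agent.helper72.CJ.Theta

/-!
# Module P of MP_0a3d4f_ag (points of projective space)
-/

set_option autoImplicit false

namespace Pool.Agent.helper4.CJ

open Pool.Agent.helper72.CJ

theorem bc_span {A B : Type} [CommRing A] [CommRing B] {m : ℕ} (f : A →+* B) (g : Fin m → A) :
    bc f (Submodule.span A {g}) = Submodule.span B {fun i => f (g i)} := by
  unfold bc
  apply le_antisymm
  · rw [Submodule.span_le]
    rintro _ ⟨x, hx, rfl⟩
    obtain ⟨a, rfl⟩ := Submodule.mem_span_singleton.1 hx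
    refine Submodule.mem_span_singleton.2 ⟨f a, ?_⟩
    funext i
    simp
  · rw [Submodule.span_singleton_le_iff_mem]
    exact Submodule.subset_span ⟨g, Submodule.mem_span_singleton_self g, rfl⟩

/-- a rank one direct summand over a UFD is generated by a primitive vector -/
theorem point_ufd {R : Type} [CommRing R] [IsDomain R] [UniqueFactorizationMonoid R] {m : ℕ}
    (ℓ : Submodule R (Fin m → R)) (h : IsPoint ℓ) :
    ∃ G : Fin m → R, ℓ = Submodule.span R {G} := by
  classical
  obtain ⟨⟨ℓ', hc⟩, hr⟩ := h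
  have hK := hr (FractionRing R) (algebraMap R (FractionRing R))
  -- a nonzero vector
  have hne : ∃ v ∈ ℓ, v ≠ 0 := by
    by_contra hcon
    push Not at hcon
    have : bc (algebraMap R (FractionRing R)) ℓ = ⊥ := by
      unfold bc
      rw [Submodule.span_eq_bot]
      rintro _ ⟨x, hx, rfl⟩
      rw [hcon x hx]
      funext i
      simp
    rw [this, finrank_bot] at hK
    exact zero_ne_one hK
  obtain ⟨v, hv, hv0⟩ := hne
  have hm : (Finset.univ : Finset (Fin m)).Nonempty := by
    obtain ⟨i, -⟩ := Function.ne_iff.1 hv0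
    exact ⟨i, Finset.mem_univ i⟩
  obtain ⟨_⟩ : Nonempty (NormalizedGCDMonoid R) := inferInstance
  obtain ⟨g, hg, hg1⟩ := Finset.extract_gcd v hm
  set d := Finset.univ.gcd v with hd
  have hvg : v = d • g := by
    funext i
    simpa using hg i (Finset.mem_univ i)
  have hd0 : d ≠ 0 := by
    intro h0
    apply hv0
    rw [hvg, h0, zero_smul]
  have hg0 : g ≠ 0 := by
    intro h0
    apply hv0
    rw [hvg, h0, smul_zero]
  have hgl : g ∈ ℓ := by
    obtain ⟨a, ha, b, hb, hab⟩ : ∃ a ∈ ℓ, ∃ b ∈ ℓ', a + b = g := by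
      have : g ∈ ℓ ⊔ ℓ' := by rw [hc.sup_eq_top]; trivial
      exact Submodule.mem_sup.1 this
    have h1 : d • b ∈ ℓ := by
      have : d • b = v - d • a := by rw [hvg, ← hab]; module
      rw [this]
      exact ℓ.sub_mem hv (ℓ.smul_mem _ ha)
    have h2 : d • b = 0 := (Submodule.disjoint_def.1 hc.disjoint) _ h1 (ℓ'.smul_mem _ hb)
    have h3 : b = 0 := (smul_eq_zero.1 h2).resolve_left hd0
    rw [← hab, h3, add_zero]
    exact ha
  refine ⟨g, le_antisymm ?_ ?_⟩
  swap
  · rw [Submodule.span_singleton_le_iff_mem]; exact hgl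
  intro w hw
  -- the image in the fraction field
  have himg : ∀ x ∈ ℓ, (fun i => algebraMap R (FractionRing R) (x i)) ∈
      bc (algebraMap R (FractionRing R)) ℓ := fun x hx => Submodule.subset_span ⟨x, hx, rfl⟩
  have hgK : (⟨_, himg g hgl⟩ : bc (algebraMap R (FractionRing R)) ℓ) ≠ 0 := by
    intro h0
    apply hg0
    funext i
    have := congrFun (congrArg Subtype.val h0) i
    simpa using this
  obtain ⟨c, hcw⟩ := (finrank_eq_one_iff_of_nonzero' _ hgK).1 hK ⟨_, himg w hw⟩
  have hcw' : ∀ i, c * algebraMap R (FractionRing R) (g i) =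
      algebraMap R (FractionRing R) (w i) := by
    intro i
    have := congrFun (congrArg Subtype.val hcw) i
    simpa using this
  obtain ⟨p, q, hpq, hc'⟩ := IsFractionRing.exists_reduced_fraction (A := R) c
  have hqw : ∀ i, p * g i = q * w i := by
    intro i
    have h1 := hcw' i
    rw [← hc', IsFractionRing.mk'_eq_div, div_mul_eq_mul_div, div_eq_iff] at h1
    · apply IsFractionRing.injective R (FractionRing R)
      rw [map_mul, map_mul, h1, mul_comm]
    · exact IsFractionRing.to_map_ne_zero_of_mem_nonZeroDivisors q.2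
  have hqg : ∀ i, (q : R) ∣ g i := by
    intro i
    have : (q : R) ∣ p * g i := ⟨w i, hqw i⟩
    exact (hpq.symm.dvd_of_dvd_mul_left this)
  have hqu : IsUnit (q : R) := by
    have : (q : R) ∣ Finset.univ.gcd g := Finset.dvd_gcd fun i _ => hqg i
    rw [hg1] at this
    exact isUnit_of_dvd_one this
  obtain ⟨u, hu⟩ := hqu
  refine Submodule.mem_span_singleton.2 ⟨(u⁻¹ : Rˣ) * p, ?_⟩
  funext i
  have := hqw i
  rw [← hu] at this
  simp only [Pi.smul_apply, smul_eq_mul]
  rw [mul_assoc, this, ← mul_assoc, Units.inv_mul, one_mul]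

theorem point_mv {k : Type} [Field k] {m : ℕ}
    (ℓ : Submodule (MvPolynomial (Fin 2) k) (Fin m → MvPolynomial (Fin 2) k)) (h : IsPoint ℓ) :
    ∃ G : Fin m → MvPolynomial (Fin 2) k, ℓ = Submodule.span _ {G} ∧ ∃ i, (G i).coeff 0 ≠ 0 := by
  obtain ⟨G, hG⟩ := point_ufd ℓ h
  refine ⟨G, hG, ?_⟩
  by_contra hcon
  push Not at hcon
  have h1 := h.2 k MvPolynomial.constantCoeff
  rw [hG, bc_span] at h1
  have h2 : (fun i => MvPolynomial.constantCoeff (G i)) = (0 : Fin m → k) := by
    funext i
    rw [MvPolynomial.constantCoeff_eq]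
    exact hcon i
  rw [h2, Submodule.span_zero_singleton, finrank_bot] at h1
  exact zero_ne_one h1

theorem hasDeg_unique {k : Type} [Field k] {m : ℕ}
    (ℓ : Submodule (Polynomial k) (Fin m → Polynomial k)) (p p' : ℤ) (h : HasDeg ℓ p)
    (h' : HasDeg ℓ p') : p = p' := by
  have key : ∀ (p p' : ℤ), HasDeg ℓ p → HasDeg ℓ p' → p ≤ p' := by
    rintro p p' ⟨g, hg, -, -, i, hi0, hi⟩ ⟨g', hg', -, hle, -⟩
    have h1 : Submodule.span (Polynomial k) {g} = Submodule.span (Polynomial k) {g'} :=
      hg.symm.trans hg'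
    obtain ⟨u, hu⟩ := Submodule.span_singleton_eq_span_singleton.1 h1
    obtain ⟨c, hc, hcu⟩ := Polynomial.isUnit_iff.1 u.isUnit
    have h2 : g' i = (u : Polynomial k) * g i := by
      rw [← hu]; rfl
    have h3 : (g' i).natDegree = (g i).natDegree := by
      rw [h2, ← hcu, Polynomial.natDegree_C_mul hc.ne_zero]
    rw [← hi, ← h3]
    exact hle i
  exact le_antisymm (key p p' h h') (key p' p h' h)

theorem hasDeg_scale {k : Type} [Field k] {m : ℕ}
    (ℓ : Submodule (Polynomial k) (Fin m → Polynomial k)) (p : ℤ) (h : HasDeg ℓ p) (κ : kˣ) :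
    HasDeg (bc ((Polynomial.aeval (Polynomial.C (κ : k) * Polynomial.X) :
      Polynomial k →ₐ[k] Polynomial k) : Polynomial k →+* Polynomial k) ℓ) p := by
  obtain ⟨g, hg, h0, hle, i, hi0, hi⟩ := h
  have hcomp : ∀ f : Polynomial k, ((Polynomial.aeval (Polynomial.C (κ : k) * Polynomial.X) :
      Polynomial k →ₐ[k] Polynomial k) : Polynomial k →+* Polynomial k) f =
      f.comp (Polynomial.C (κ : k) * Polynomial.X) := by
    intro f
    rw [Polynomial.comp_eq_aeval]
    rfl
  have hdeg : ∀ f : Polynomial k,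
      (f.comp (Polynomial.C (κ : k) * Polynomial.X)).natDegree = f.natDegree := by
    intro f
    rw [Polynomial.natDegree_comp, Polynomial.natDegree_C_mul_X _ κ.ne_zero, mul_one]
  have hcoe : ∀ (f : Polynomial k) (n : ℕ),
      (f.comp (Polynomial.C (κ : k) * Polynomial.X)).coeff n = f.coeff n * (κ : k) ^ n :=
    fun f n => Polynomial.comp_C_mul_X_coeff
  refine ⟨fun i => (g i).comp (Polynomial.C (κ : k) * Polynomial.X), ?_, ?_, ?_, i, ?_, ?_⟩
  · rw [hg, bc_span]
    have : (fun i => ((Polynomial.aeval (Polynomial.C (κ : k) * Polynomial.X) :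
        Polynomial k →ₐ[k] Polynomial k) : Polynomial k →+* Polynomial k) (g i)) =
        fun i => (g i).comp (Polynomial.C (κ : k) * Polynomial.X) := by
      funext i
      exact hcomp (g i)
    rw [this]
  · obtain ⟨j, hj⟩ := h0
    refine ⟨j, ?_⟩
    rw [hcoe]
    simpa using hj
  · intro j
    rw [hdeg]
    exact hle j
  · intro hz
    apply hi0
    ext n
    have := congrArg (fun f => Polynomial.coeff f n) hz
    simp only [hcoe, Polynomial.coeff_zero] at this
    rw [Polynomial.coeff_zero]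
    exact (mul_eq_zero.1 this).resolve_right (pow_ne_zero _ κ.ne_zero)
  · show ((((g i).comp (Polynomial.C (κ : k) * Polynomial.X)).natDegree : ℕ) : ℤ) = p
    rw [hdeg, hi]

end Pool.Agent.helper4.CJ
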